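import Pool.Agent.H21.HCK

namespace Pool.Agent.Results.MP_58e31d_lc.Yes

open Pool.Agent.H11.PT Pool.Agent.H21.HCKDefs

theorem result (p : ℕ) (F : Fin p → Fin p → Prop) (hF : ∀ a b, F a b → F b a)
    (h : NPComplete (ListCol F)) :
    ∃ (W : Type) (_ : Fintype W) (H : W → W → Prop) (C : Set W) (K : W → ℕ) (ι : Fin p → W),
      (∀ a b, H a b → H b a) ∧ Function.Injective ι ∧ Set.range ι = Cᶜ ∧
      (∀ a b, H (ι a) (ι b) ↔ F a b) ∧ NPComplete (WCol H C K) :=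
  ⟨_, inferInstance, H21.HCK.Hx F, Set.range .inr, fun _ => 1, .inl, H21.HCK.Hx_symm F hF,
    Sum.inl_injective, Set.compl_range_inr.symm, fun _ _ => Iff.rfl, H21.HCK.inNP _ _ _,
    H21.HCK.hard F hF h.2⟩

end Pool.Agent.Results.MP_58e31d_lc.Yes
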